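import Mathlib

set_option autoImplicit false

namespace Pool.Agent.Results.MP_a93e77_co.Neg

/-- `P` is an isomorphism-permutation of `G` (an isomorphism from `G` onto its complement). -/
def IsIsoPerm {V : Type} (G : SimpleGraph V) (P : Equiv.Perm V) : Prop :=
  ∀ u v : V, u ≠ v → (G.Adj u v ↔ ¬ G.Adj (P u) (P v))

/-- `F(G)`: vertices fixed by some isomorphism-permutation. -/
def FSet {V : Type} (G : SimpleGraph V) : Set V :=
  {v | ∃ P : Equiv.Perm V, IsIsoPerm G P ∧ P v = v}

/-- `N(G)`: edges `uv` with `P u = v` or `P v = u` for some isomorphism-permutation `P`. -/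
def NSet {V : Type} (G : SimpleGraph V) : Set (Sym2 V) :=
  {e | e ∈ G.edgeSet ∧ ∃ u v : V, e = s(u, v) ∧
    ∃ P : Equiv.Perm V, IsIsoPerm G P ∧ (P u = v ∨ P v = u)}

/-- `G` is regular. -/
def Regular {V : Type} (G : SimpleGraph V) : Prop :=
  ∃ d : ℕ, ∀ v : V, (G.neighborSet v).ncard = d

/-- every edge lies in the same number of triangles (the triangles on the edge `uv` are the
common neighbours of `u` and `v`), and any two distinct nonadjacent vertices have the same
number of common neighbours. -/
def StronglyReg {V : Type} (G : SimpleGraph V) : Prop :=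
  (∃ a : ℕ, ∀ u v : V, G.Adj u v → (G.commonNeighbors u v).ncard = a) ∧
  (∃ b : ℕ, ∀ u v : V, u ≠ v → ¬ G.Adj u v → (G.commonNeighbors u v).ncard = b)

def adjB (u v : Fin 13) : Bool :=
  (u - v = 1) || (u - v = 2) || (u - v = 4) || (u - v = 9) || (u - v = 11) || (u - v = 12)

/-- the circulant graph on `Z_13` with connection set `{±1, ±2, ±4}`. -/
def C13 : SimpleGraph (Fin 13) where
  Adj u v := adjB u v = true
  symm := ⟨by
    have h : ∀ u v : Fin 13, adjB u v = true → adjB v u = true := by decide +kernel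
    exact h⟩
  loopless := ⟨by
    have h : ∀ u : Fin 13, ¬ (adjB u u = true) := by decide +kernel
    exact h⟩

instance : DecidableRel C13.Adj := fun u v => inferInstanceAs (Decidable (adjB u v = true))

def aff (b : Fin 13) : Equiv.Perm (Fin 13) where
  toFun x := 5 * x + b
  invFun x := 8 * (x - b)
  left_inv := by
    have h : ∀ b x : Fin 13, 8 * ((5 * x + b) - b) = x := by decide +kernel
    exact h b
  right_inv := by
    have h : ∀ b x : Fin 13, 5 * (8 * (x - b)) + b = x := by decide +kernel
    exact h b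

theorem aff_iso (b : Fin 13) : IsIsoPerm C13 (aff b) := by
  have h : ∀ b u v : Fin 13, u ≠ v →
      (adjB u v = true ↔ ¬ (adjB (5 * u + b) (5 * v + b) = true)) := by decide +kernel
  exact h b

theorem aff_hit (u v : Fin 13) : aff (v - 5 * u) u = v := by
  have h : ∀ u v : Fin 13, 5 * u + (v - 5 * u) = v := by decide +kernel
  exact h u v

theorem reg : Regular C13 := by
  refine ⟨6, fun v => ?_⟩
  rw [Set.ncard_eq_toFinset_card']
  revert v
  decide +kernel

theorem selfc : Nonempty (C13 ≃g C13ᶜ) := by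
  refine ⟨⟨aff 0, ?_⟩⟩
  intro u v
  rw [SimpleGraph.compl_adj]
  by_cases huv : u = v
  · subst huv
    simp
  · have h := aff_iso 0 u v huv
    constructor
    · intro h2
      exact h.2 h2.2
    · intro h2
      exact ⟨fun h3 => huv ((aff 0).injective h3), h.1 h2⟩

theorem hF : FSet C13 = Set.univ := by
  ext v
  simp only [Set.mem_univ, iff_true]
  exact ⟨aff (v - 5 * v), aff_iso _, aff_hit v v⟩

theorem hN : NSet C13 = C13.edgeSet := by
  ext e
  constructor
  · intro h
    exact h.1
  · intro h
    refine ⟨h, ?_⟩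
    induction e using Sym2.ind with
    | h u v => exact ⟨u, v, rfl, aff (v - 5 * u), aff_iso _, Or.inl (aff_hit u v)⟩

theorem notSRG : ¬ StronglyReg C13 := by
  rintro ⟨⟨a, ha⟩, -⟩
  have h1 := ha 0 1 (by decide +kernel)
  have h2 := ha 0 2 (by decide +kernel)
  have e1 : (C13.commonNeighbors 0 1).ncard = 2 := by
    rw [Set.ncard_eq_toFinset_card']
    decide +kernel
  have e2 : (C13.commonNeighbors 0 2).ncard = 3 := by
    rw [Set.ncard_eq_toFinset_card']
    decide +kernel
  omega

/-- Kotzig's criterion fails: the equivalence is false, and in fact its direction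
`F(G) = V(G) ∧ N(G) = E(G) → strongly regular` fails on 13 vertices. -/
theorem result :
    (¬ ∀ (V : Type) [Finite V] (G : SimpleGraph V), Regular G → Nonempty (G ≃g Gᶜ) →
      (StronglyReg G ↔ (FSet G = Set.univ ∧ NSet G = G.edgeSet))) ∧
    (∃ G : SimpleGraph (Fin 13), Regular G ∧ Nonempty (G ≃g Gᶜ) ∧
      FSet G = Set.univ ∧ NSet G = G.edgeSet ∧ ¬ StronglyReg G) := by
  refine ⟨fun h => notSRG ((h (Fin 13) C13 reg selfc).2 ⟨hF, hN⟩),
    C13, reg, selfc, hF, hN, notSRG⟩

end Pool.Agent.Results.MP_a93e77_co.Neg
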